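import Pool.Agent.Helper89.TT.Stmts3

set_option autoImplicit false

open Finset

namespace Pool.Agent.Helper89.TT

theorem scale_mem (m n X : ℕ) (P : Finset ℕ × Finset ℕ) :
    P ∈ Cmp m n X ↔ ((P.1 ⊆ Finset.Icc 1 X ∧ P.1.card = m) ∧ (P.2 ⊆ Finset.Icc 1 X ∧ P.2.card = n)) ∧
      (∀ a ∈ P.1, ∀ b ∈ P.2, IsSquare (a ^ 2 + b ^ 2)) ∧
      (m + n = 4 → ∏ a ∈ P.1, a ≠ ∏ b ∈ P.2, b) := by
  unfold Cmp
  rw [mem_filter, mem_product, mem_powersetCard, mem_powersetCard]

theorem scale_sq (g a b : ℕ) (hg : 0 < g) :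
    IsSquare ((g * a) ^ 2 + (g * b) ^ 2) ↔ IsSquare (a ^ 2 + b ^ 2) := by
  constructor
  · rintro ⟨c, hc⟩
    have h1 : g ^ 2 * (a ^ 2 + b ^ 2) = c ^ 2 := by rw [sq c, ← hc]; ring
    have h2 : g ∣ c := by
      have : g ^ 2 ∣ c ^ 2 := ⟨_, h1.symm⟩
      exact (Nat.pow_dvd_pow_iff (by norm_num)).1 this
    obtain ⟨d, rfl⟩ := h2
    refine ⟨d, ?_⟩
    have h3 : g ^ 2 * (a ^ 2 + b ^ 2) = g ^ 2 * (d * d) := by rw [h1]; ring
    exact Nat.eq_of_mul_eq_mul_left (pow_pos hg 2) h3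
  · rintro ⟨c, hc⟩
    refine ⟨g * c, ?_⟩
    calc (g * a) ^ 2 + (g * b) ^ 2 = g ^ 2 * (a ^ 2 + b ^ 2) := by ring
      _ = g * c * (g * c) := by rw [hc]; ring

theorem scale_inj (g : ℕ) (hg : 0 < g) : Function.Injective (fun x : ℕ => g * x) :=
  fun _ _ h => Nat.eq_of_mul_eq_mul_left hg h

theorem scale_sub (g X : ℕ) (hg : 0 < g) (A : Finset ℕ) :
    A.image (fun x => g * x) ⊆ Finset.Icc 1 X ↔ A ⊆ Finset.Icc 1 (X / g) := by
  constructor
  · intro h x hx
    have h1 := mem_Icc.1 (h (mem_image_of_mem _ hx))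
    rw [mem_Icc]
    refine ⟨?_, (Nat.le_div_iff_mul_le hg).2 (by rw [mul_comm]; exact h1.2)⟩
    rcases Nat.eq_zero_or_pos x with h0 | h0
    · exfalso; rw [h0] at h1; simp at h1
    · exact h0
  · intro h y hy
    obtain ⟨x, hx, rfl⟩ := mem_image.1 hy
    have h1 := mem_Icc.1 (h hx)
    rw [mem_Icc]
    refine ⟨Nat.mul_pos hg h1.1, ?_⟩
    have := (Nat.le_div_iff_mul_le hg).1 h1.2
    rw [mul_comm]; exact this

theorem scale_prod (g : ℕ) (hg : 0 < g) (A : Finset ℕ) :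
    ∏ a ∈ A.image (fun x => g * x), a = g ^ A.card * ∏ a ∈ A, a := by
  rw [prod_image (fun x _ y _ h => scale_inj g hg h), prod_mul_distrib, prod_const]

theorem scale_cmp (m n X g : ℕ) (hm : 2 ≤ m) (hn : 2 ≤ n) (hg : 0 < g) (A B : Finset ℕ) :
    ((A.image (fun x => g * x), B.image (fun x => g * x)) : Finset ℕ × Finset ℕ) ∈ Cmp m n X ↔
      ((A, B) : Finset ℕ × Finset ℕ) ∈ Cmp m n (X / g) := by
  rw [scale_mem, scale_mem]
  simp only [scale_sub g X hg, card_image_of_injective _ (scale_inj g hg)]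
  apply and_congr_right
  rintro ⟨⟨-, hA⟩, ⟨-, hB⟩⟩
  apply and_congr
  · constructor
    · intro h a ha b hb
      exact (scale_sq g a b hg).1 (h _ (mem_image_of_mem _ ha) _ (mem_image_of_mem _ hb))
    · intro h a ha b hb
      obtain ⟨a', ha', rfl⟩ := mem_image.1 ha
      obtain ⟨b', hb', rfl⟩ := mem_image.1 hb
      exact (scale_sq g a' b' hg).2 (h _ ha' _ hb')
  · apply imp_congr_right
    intro h4
    have hm2 : m = 2 := by omega
    have hn2 : n = 2 := by omega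
    rw [scale_prod g hg, scale_prod g hg, hA, hB, hm2, hn2]
    exact (Nat.mul_right_inj (pow_pos hg 2).ne').not

theorem scale_gcd (g : ℕ) (A B : Finset ℕ) :
    (A.image (fun x => g * x) ∪ B.image (fun x => g * x)).gcd id = g * (A ∪ B).gcd id := by
  rw [← image_union, gcd_image]
  have := Finset.gcd_mul_left (s := A ∪ B) (f := (id : ℕ → ℕ)) (a := g)
  simpa using this

theorem scale_back (g : ℕ) (hg : 0 < g) (A : Finset ℕ) (h : ∀ a ∈ A, g ∣ a) :
    (A.image (fun x => x / g)).image (fun x => g * x) = A := by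
  rw [image_image]
  have : ∀ a ∈ A, ((fun x => g * x) ∘ fun x => x / g) a = id a := by
    intro a ha
    exact Nat.mul_div_cancel' (h a ha)
  rw [image_congr this, image_id]

theorem st_SCALE : ST_SCALE := by
  intro m n X hm hn
  have hmap : ∀ P ∈ Cmp m n X, (P.1 ∪ P.2).gcd id ∈ Finset.Icc 1 X := by
    intro P hP
    obtain ⟨⟨⟨h1, h2⟩, -⟩, -⟩ := (scale_mem m n X P).1 hP
    have hne : P.1.Nonempty := by rw [← card_pos]; omega
    obtain ⟨a, ha⟩ := hne
    have ha1 := mem_Icc.1 (h1 ha)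
    have hd : (P.1 ∪ P.2).gcd id ∣ a := gcd_dvd (mem_union_left _ ha)
    rw [mem_Icc]
    exact ⟨Nat.pos_of_dvd_of_pos hd ha1.1, (Nat.le_of_dvd ha1.1 hd).trans ha1.2⟩
  rw [card_eq_sum_card_fiberwise hmap]
  apply sum_congr rfl
  intro g hg
  have hg0 : 0 < g := (mem_Icc.1 hg).1
  symm
  apply card_nbij (fun P => (P.1.image (fun x => g * x), P.2.image (fun x => g * x)))
  · intro P hP
    have hP' := mem_filter.1 hP
    refine mem_filter.2 ⟨(scale_cmp m n X g hm hn hg0 P.1 P.2).2 hP'.1, ?_⟩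
    show (P.1.image (fun x => g * x) ∪ P.2.image (fun x => g * x)).gcd id = g
    rw [scale_gcd, hP'.2, mul_one]
  · intro P _ Q _ h
    have h' := Prod.ext_iff.1 h
    have hi := image_injective (scale_inj g hg0)
    exact Prod.ext (hi h'.1) (hi h'.2)
  · intro P hP
    have hP' := mem_filter.1 hP
    have hd : ∀ a ∈ P.1 ∪ P.2, g ∣ a := by
      intro a ha
      rw [← hP'.2]
      exact gcd_dvd ha
    have hb1 := scale_back g hg0 P.1 (fun a ha => hd a (mem_union_left _ ha))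
    have hb2 := scale_back g hg0 P.2 (fun a ha => hd a (mem_union_right _ ha))
    refine ⟨(P.1.image (fun x => x / g), P.2.image (fun x => x / g)), ?_, ?_⟩
    · have hc : (P.1.image (fun x => x / g), P.2.image (fun x => x / g)) ∈ Cmp m n (X / g) := by
        rw [← scale_cmp m n X g hm hn hg0, hb1, hb2]
        exact hP'.1
      refine mem_filter.2 ⟨hc, ?_⟩
      have h1 := scale_gcd g (P.1.image (fun x => x / g)) (P.2.image (fun x => x / g))
      rw [hb1, hb2, hP'.2] at h1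
      have h2 : g * 1 = g * ((P.1.image (fun x => x / g)) ∪ (P.2.image (fun x => x / g))).gcd id := by
        rw [mul_one]; exact h1
      exact (Nat.eq_of_mul_eq_mul_left hg0 h2).symm
    · exact Prod.ext hb1 hb2

end Pool.Agent.Helper89.TT
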